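import Pool.Agent.ANR.Stmts

/-!
Green's identities for a network.
-/

set_option autoImplicit false

open scoped BigOperators ComplexConjugate

noncomputable section

namespace Pool.Agent.ANR.H63

open Pool.Agent.ANR

theorem grn_sym (X : Type) [Fintype X] [DecidableEq X] (H : Matrix X X ℝ) (κ : X → ℝ)
    (hN : Net H κ) (φ ψ : X → ℂ) :
    ∑ x, φ x * opv H κ ψ x = ∑ x, ψ x * opv H κ φ x := by
  have e : ∀ a b : X → ℂ, ∑ x, a x * opv H κ b x
      = (∑ x, ∑ y, (H x y : ℂ) * (a x * b y)) - ∑ x, Complex.I * (κ x : ℂ) * (a x * b x) := by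
    intro a b
    rw [← Finset.sum_sub_distrib]
    refine Finset.sum_congr rfl fun x _ => ?_
    unfold opv
    rw [mul_sub, Finset.mul_sum]
    congr 1
    · refine Finset.sum_congr rfl fun y _ => ?_
      ring
    · ring
  rw [e φ ψ, e ψ φ]
  congr 1
  · rw [Finset.sum_comm]
    refine Finset.sum_congr rfl fun x _ => ?_
    refine Finset.sum_congr rfl fun y _ => ?_
    rw [hN.sym y x]
    ring
  · refine Finset.sum_congr rfl fun x _ => ?_
    ring

theorem grn_im (X : Type) [Fintype X] [DecidableEq X] (H : Matrix X X ℝ) (κ : X → ℝ)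
    (hN : Net H κ) (ψ : X → ℂ) :
    (∑ x, conj (ψ x) * opv H κ ψ x).im = - ∑ x, κ x * ‖ψ x‖ ^ 2 := by
  have e : ∑ x, conj (ψ x) * opv H κ ψ x
      = (∑ x, ∑ y, (H x y : ℂ) * (conj (ψ x) * ψ y))
        - ∑ x, Complex.I * (((κ x * ‖ψ x‖ ^ 2 : ℝ)) : ℂ) := by
    rw [← Finset.sum_sub_distrib]
    refine Finset.sum_congr rfl fun x _ => ?_
    unfold opv
    rw [mul_sub, Finset.mul_sum]
    congr 1
    · refine Finset.sum_congr rfl fun y _ => ?_
      ring
    · have h : conj (ψ x) * ψ x = ((‖ψ x‖ ^ 2 : ℝ) : ℂ) := by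
        rw [mul_comm, Complex.mul_conj, Complex.normSq_eq_norm_sq]
      calc conj (ψ x) * (Complex.I * (κ x : ℂ) * ψ x)
          = Complex.I * (κ x : ℂ) * (conj (ψ x) * ψ x) := by ring
        _ = Complex.I * (((κ x * ‖ψ x‖ ^ 2 : ℝ)) : ℂ) := by
          rw [h]; push_cast; ring
  have hr : (∑ x, ∑ y, (H x y : ℂ) * (conj (ψ x) * ψ y)).im = 0 := by
    apply Complex.conj_eq_iff_im.1
    rw [map_sum]
    have h1 : ∀ x : X, conj (∑ y, (H x y : ℂ) * (conj (ψ x) * ψ y))
        = ∑ y, (H x y : ℂ) * (conj (ψ y) * ψ x) := by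
      intro x
      rw [map_sum]
      refine Finset.sum_congr rfl fun y _ => ?_
      rw [map_mul, map_mul, Complex.conj_conj, Complex.conj_ofReal]
      ring
    rw [Finset.sum_congr rfl fun x _ => h1 x, Finset.sum_comm]
    refine Finset.sum_congr rfl fun x _ => ?_
    refine Finset.sum_congr rfl fun y _ => ?_
    rw [hN.sym y x]
  rw [e, Complex.sub_im, hr, Complex.im_sum, zero_sub]
  congr 1
  refine Finset.sum_congr rfl fun x _ => ?_
  rw [Complex.I_mul_im, Complex.ofReal_re]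

theorem grn : GrnStmt := by
  intro X _ _ H κ hN
  exact ⟨fun φ ψ => grn_sym X H κ hN φ ψ, fun ψ => grn_im X H κ hN ψ⟩

end Pool.Agent.ANR.H63
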